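import Pool.Agent.Lib_helper48.JB.Final

set_option autoImplicit false

/-!
Problem MP_09632a_an, Q1: the answer is no. The nonassociative `L^p` space of a JBW star algebra,
defined by complex interpolation of the couple `(M, M_*)` embedded by `x ↦ φ(x ∘ ·)`, depends on
the normal faithful state `φ`, even up to isometric isomorphism.
-/

namespace Pool.Agent.Results.MP_09632a_an.StateDependence

open Pool.Agent.Lib_helper48.JB
open scoped Matrix.Norms.L2Operator

theorem result : ∃ (p : ℝ) (M : Type) (_ : NormedAddCommGroup M) (_ : NormedSpace ℂ M)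
    (_ : CompleteSpace M) (J : JBWStarAlgebra M) (φ ψ : StrongDual ℂ M),
    1 < p ∧ J.IsNormalFaithfulState φ ∧ J.IsNormalFaithfulState ψ ∧ ¬ J.LpIsometric p φ ψ := by
  have hd : ∀ i, 0 < (![1 / 3, 2 / 3] : Fin 2 → ℝ) i := by
    intro i
    fin_cases i <;> norm_num
  have hsum : (![1 / 3, 2 / 3] : Fin 2 → ℝ) 0 + (![1 / 3, 2 / 3] : Fin 2 → ℝ) 1 = 1 := by norm_num
  have hne : (![1 / 3, 2 / 3] : Fin 2 → ℝ) 0 ≠ (![1 / 3, 2 / 3] : Fin 2 → ℝ) 1 := by norm_num
  refine ⟨4, A2, inferInstance, inferInstance, inferInstance, J2, st ![1 / 3, 2 / 3], st dt,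
    by norm_num, st_state hd hsum, st_state dt_pos (by unfold dt; norm_num), ?_⟩
  exact not_isometric hd hsum hne

end Pool.Agent.Results.MP_09632a_an.StateDependence
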